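import Pool.Agent.Helper54.PT.DefsF
import Pool.Agent.Helper73.TW.C24

/-!
# MP_1d384c_nt : module B16, squarefree polynomials and finite sets of primes
-/

set_option autoImplicit false

namespace Pool.Agent.Helper54.PT

open Polynomial Finset Filter Topology Module

section RatFunc

variable {F : Type} [Field F] [Finite F] {lg : F → ZMod 2}

variable {σ : Type} [Fintype σ] [DecidableEq σ] {R : σ → Prm F} {α β : F[X]}

open Pool.Agent.Helper73.TWC24 in
/-- B16: squarefree polynomials and finite sets of primes (copy of C24 = Helper73/TW/C24.lean) -/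
theorem sqfF_bij (hrec : ∀ P Q : Prm F, P ≠ Q → sy lg Q.1 P.1 = sy lg P.1 Q.1)
    (hS : SetupF R α β) (n : ℕ) :
    Set.BijOn (fun D : Finset (pd lg hrec R).P => ∏ P ∈ und lg hrec R D, P.1)
      ((pd lg hrec R).sq n : Set (Finset (pd lg hrec R).P)) (sqfF α β n) := by
  have hmem : ∀ (D : Finset (pd lg hrec R).P) (P : (pd lg hrec R).P),
      P.1 ∈ und lg hrec R D ↔ P ∈ D := by
    intro D P
    unfold und
    rw [Finset.mem_map]
    constructor
    · rintro ⟨Q, hQ, hQP⟩
      have : Q = P := Subtype.ext hQP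
      rwa [← this]
    · intro h
      exact ⟨P, h, rfl⟩
  have hdeg : ∀ D : Finset (pd lg hrec R).P,
      (∏ P ∈ und lg hrec R D, P.1).natDegree = (pd lg hrec R).dg D := by
    intro D
    rw [natDegree_prd, und, Finset.sum_map]
    rfl
  refine ⟨?_, ?_, ?_⟩
  · intro D hD
    rw [mem_coe, PData.mem_sq] at hD
    refine ⟨monic_prod _, by rw [hdeg, hD], squarefree_prod _, ?_⟩
    refine IsCoprime.prod_left fun P hP => P.2.2.coprime_iff_not_dvd.2 fun h => ?_
    obtain ⟨r, hr⟩ := (hS.mem P).2 h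
    unfold und at hP
    rw [Finset.mem_map] at hP
    obtain ⟨Q, _, hQP⟩ := hP
    apply Q.2 r
    rw [hr]
    exact hQP
  · intro D _ D' _ hDD'
    have h1 : ∀ P : Prm F, P ∈ und lg hrec R D ↔ P ∈ und lg hrec R D' := by
      intro P
      rw [← dvd_prod_iff, ← dvd_prod_iff]
      have : ∏ P ∈ und lg hrec R D, P.1 = ∏ P ∈ und lg hrec R D', P.1 := hDD'
      rw [this]
    apply Finset.ext
    intro P
    rw [← hmem D P, ← hmem D' P]
    exact h1 P.1
  · intro f hf
    obtain ⟨hf1, hf2, hf3, hf4⟩ := hf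
    obtain ⟨D', hD'⟩ := exists_prod_eq hf1 hf3
    have hR : ∀ P ∈ D', ∀ r, P ≠ R r := by
      intro P hP r hPr
      have h1 : P.1 ∣ f := by
        rw [← hD']
        exact (dvd_prod_iff D' P).2 hP
      have h2 : P.1 ∣ α * β * (β - α) := (hS.mem P).1 ⟨r, hPr.symm⟩
      exact P.2.2.not_isUnit (hf4.isUnit_of_dvd' h1 h2)
    classical
    let D : Finset (pd lg hrec R).P := D'.attach.image fun P =>
      (⟨P.1, hR P.1 P.2⟩ : {P : Prm F // ∀ r, P ≠ R r})
    have hD : und lg hrec R D = D' := by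
      apply Finset.ext
      intro P
      unfold und
      rw [Finset.mem_map]
      constructor
      · rintro ⟨Q, hQ, hQP⟩
        obtain ⟨P', _, hP'⟩ := Finset.mem_image.1 hQ
        rw [← hQP, ← hP']
        exact P'.2
      · intro h
        exact ⟨⟨P, hR P h⟩, Finset.mem_image.2 ⟨⟨P, h⟩, Finset.mem_attach _ _, rfl⟩, rfl⟩
    refine ⟨D, ?_, ?_⟩
    · rw [mem_coe, PData.mem_sq, ← hdeg, hD, hD', hf2]
    · show ∏ P ∈ und lg hrec R D, P.1 = f
      rw [hD, hD']

end RatFunc

end Pool.Agent.Helper54.PT
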